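import Pool.Agent.Helper77.SUBK.SheetK

/-! Project SUBK, row GALA: complex embeddings, norms, Northcott. -/

set_option autoImplicit false

namespace Pool.Agent.Helper9.SUBK

open Finset Matrix Pool.Agent.Helper70.SUB Pool.Agent.Helper77.SUBK

theorem st_GALA : ST_GALA := by
  intro M _ _ _ S P hS
  have h1 : ∀ φ : M →+* ℂ, ∃ σ : M ≃ₐ[ℚ] M, ∀ x, ‖φ x‖ = P.nv none (σ x) := by
    intro φ
    obtain ⟨σ, hσ⟩ := NumberField.ComplexEmbedding.exists_comp_symm_eq_of_comp_eq (k := ℚ)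
      P.emb φ (Subsingleton.elim _ _)
    refine ⟨σ.symm, fun x => ?_⟩
    rw [P.inf, ← hσ]
    rfl
  refine ⟨h1, ?_, ?_⟩
  · intro v hv z
    rw [← P.prod hv, ← Algebra.norm_eq_prod_automorphisms]
    exact P.ext v hv _
  · intro B
    refine (NumberField.Embeddings.finite_of_norm_le M ℂ B).subset ?_
    rintro z ⟨hz1, hz2⟩
    refine ⟨hz1, fun φ => ?_⟩
    obtain ⟨σ, hσ⟩ := h1 φ
    rw [hσ]
    exact hz2 σ

end Pool.Agent.Helper9.SUBK
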