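import Pool.Agent.Helper77.SUBK.SheetK

/-! Project SUBK, row INTG: `S`-integers which are small above `S` are integral. -/

set_option autoImplicit false

namespace Pool.Agent.Helper9.SUBK

open Finset Matrix Polynomial Pool.Agent.Helper70.SUB Pool.Agent.Helper77.SUBK

/-- products of polynomials with coefficients in the unit ball -/
theorem coeff_prod_le {S : Finset ℕ} {M : Type} [Field M] [NumberField M] (P : PF S M) {p : ℕ}
    (hp : p ∈ S) {ι : Type} (s : Finset ι) (f : ι → M[X])
    (hf : ∀ i ∈ s, ∀ k, P.nv (some p) ((f i).coeff k) ≤ 1) (k : ℕ) :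
    P.nv (some p) ((∏ i ∈ s, f i).coeff k) ≤ 1 := by
  classical
  have hv := mem_some hp
  induction s using Finset.induction_on generalizing k with
  | empty =>
    rw [Finset.prod_empty, Polynomial.coeff_one]
    split_ifs
    · rw [P.one hv]
    · rw [P.nz]; exact zero_le_one
  | insert a s ha ih =>
    rw [Finset.prod_insert ha, Polynomial.coeff_mul]
    refine P.sum_ult hp _ _ 1 zero_le_one fun x _ => ?_
    rw [P.mul _ hv]
    exact mul_le_one₀ (hf a (Finset.mem_insert_self _ _) _) (P.nn _ _)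
      (ih (fun i hi => hf i (Finset.mem_insert_of_mem hi)) _)

theorem coeff_prod_int {M : Type} [Field M] {ι : Type} (s : Finset ι) (f : ι → M[X])
    (hf : ∀ i ∈ s, ∀ k, IsIntegral ℤ ((f i).coeff k)) (k : ℕ) :
    IsIntegral ℤ ((∏ i ∈ s, f i).coeff k) := by
  classical
  induction s using Finset.induction_on generalizing k with
  | empty =>
    rw [Finset.prod_empty, Polynomial.coeff_one]
    split_ifs
    · exact isIntegral_one
    · exact isIntegral_zero
  | insert a s ha ih =>
    rw [Finset.prod_insert ha, Polynomial.coeff_mul]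
    refine IsIntegral.sum _ fun x _ => ?_
    exact (hf a (Finset.mem_insert_self _ _) _).mul
      (ih (fun i hi => hf i (Finset.mem_insert_of_mem hi)) _)

/-- a rational number whose denominator is harmless is an integer -/
theorem rat_int (hAV : ST_AV) (S : Finset ℕ) (hS : ∀ p ∈ S, p.Prime) (q : ℚ) (n : ℕ)
    (hn : Sm S n) (d : ℕ) (hq : ∀ p ∈ S, av (some p) q ≤ 1)
    (hi : IsIntegral ℤ ((n : ℚ) ^ d * q)) : ∃ z : ℤ, q = z := by
  obtain ⟨a, ha⟩ := IsIntegrallyClosed.isIntegral_iff.1 hi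
  have ha' : (n : ℚ) ^ d * q = a := by rw [← ha]; simp
  suffices h : q.den = 1 from ⟨q.num, ((Rat.den_eq_one_iff q).1 h).symm⟩
  by_contra hden
  obtain ⟨l, hl, hld⟩ := Nat.exists_prime_and_dvd hden
  have h1 : (n : ℤ) ^ d * q.num = a * q.den := by
    have h2 : (q : ℚ) * q.den = q.num := Rat.mul_den_eq_num q
    have h3 : ((n : ℚ) ^ d * q) * q.den = a * q.den := by rw [ha']
    rw [mul_assoc, h2] at h3
    exact_mod_cast h3
  have h2 : (l : ℤ) ∣ (n : ℤ) ^ d * q.num := by
    rw [h1]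
    exact (Int.natCast_dvd_natCast.2 hld).mul_left _
  have hlp : Prime (l : ℤ) := Nat.prime_iff_prime_int.1 hl
  have h3 : ¬ (l : ℤ) ∣ q.num := by
    intro h
    have h4 : l ∣ q.num.natAbs := by
      exact Int.natCast_dvd.1 h
    have h5 := Nat.dvd_gcd h4 hld
    rw [q.reduced] at h5
    exact hl.one_lt.ne' (Nat.dvd_one.1 h5)
  have h4 : (l : ℤ) ∣ (n : ℤ) := by
    rcases hlp.dvd_or_dvd h2 with h | h
    · exact hlp.dvd_of_dvd_pow h
    · exact absurd h h3
  have hlS : l ∈ S := hn.2 l hl (Int.natCast_dvd_natCast.1 h4)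
  have h5 := hq l hlS
  obtain ⟨apos, amul, -⟩ := hAV.2.2 S hS
  have hv : some l ∈ plc S := mem_some hlS
  have h6 : av (some l) q * av (some l) (q.den : ℚ) = av (some l) (q.num : ℚ) := by
    rw [← amul _ hv, Rat.mul_den_eq_num]
  have : Fact l.Prime := ⟨hl⟩
  have h7 : av (some l) (q.num : ℚ) = 1 := by
    show ((padicNorm l ((q.num : ℤ) : ℚ) : ℚ) : ℝ) = 1
    rw [(padicNorm.int_eq_one_iff _).2 h3]
    simp
  have h8 : av (some l) (q.den : ℚ) < 1 := by
    show ((padicNorm l ((q.den : ℕ) : ℚ) : ℚ) : ℝ) < 1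
    have h9 : padicNorm l ((q.den : ℕ) : ℚ) < 1 := (padicNorm.nat_lt_one_iff _).2 hld
    exact_mod_cast h9
  have h9 := hAV.1 (some l) q
  have h10 := hAV.1 (some l) (q.den : ℚ)
  rw [h7] at h6
  nlinarith

theorem st_INTG (hAV : ST_AV) : ST_INTG := by
  intro M _ _ _ S P hS z hz hzs
  classical
  obtain ⟨n, hn, hni⟩ := hz
  obtain ⟨f, hf⟩ : ∃ f : M[X], f = ∏ σ : M ≃ₐ[ℚ] M, (X - C (σ z)) := ⟨_, rfl⟩
  have hmon : f.Monic := by
    rw [hf]
    exact Polynomial.monic_prod_of_monic _ _ fun σ _ => Polynomial.monic_X_sub_C _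
  have hroot : f.eval z = 0 := by
    rw [hf, Polynomial.eval_prod]
    refine Finset.prod_eq_zero (Finset.mem_univ (AlgEquiv.refl : M ≃ₐ[ℚ] M)) ?_
    simp
  have hfix : ∀ τ : M ≃ₐ[ℚ] M, ∀ k, τ (f.coeff k) = f.coeff k := by
    intro τ k
    have h1 : f.map (τ : M →+* M) = f := by
      rw [hf, Polynomial.map_prod]
      simp only [Polynomial.map_sub, Polynomial.map_X, Polynomial.map_C]
      exact Fintype.prod_equiv (Equiv.mulLeft τ) _ _ fun σ => rfl
    conv_rhs => rw [← h1]
    rw [Polynomial.coeff_map]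
    rfl
  have hrat : ∀ k, ∃ q : ℚ, f.coeff k = (q : M) := by
    intro k
    obtain ⟨q, hq⟩ := (IsGalois.mem_range_algebraMap_iff_fixed (F := ℚ) (f.coeff k)).2
      fun τ => hfix τ k
    exact ⟨q, hq.symm⟩
  have hint : ∀ k, ∃ a : ℤ, f.coeff k = (a : M) := by
    intro k
    obtain ⟨q, hq⟩ := hrat k
    have h1 : ∀ p ∈ S, av (some p) q ≤ 1 := by
      intro p hp
      rw [← P.ext _ (mem_some hp) q, ← hq, hf]
      refine coeff_prod_le P hp _ _ (fun σ _ k => ?_) k
      rw [Polynomial.coeff_sub, Polynomial.coeff_X, Polynomial.coeff_C]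
      rw [sub_eq_add_neg]
      refine (P.ult p hp _ _).trans (max_le ?_ ?_)
      · split_ifs
        · rw [P.one (mem_some hp)]
        · rw [P.nz]; exact zero_le_one
      · rw [P.neg (mem_some hp)]
        split_ifs
        · exact hzs p hp σ
        · rw [P.nz]; exact zero_le_one
    have h2 : IsIntegral ℤ ((n : ℚ) ^ Fintype.card (M ≃ₐ[ℚ] M) * q) := by
      rw [← isIntegral_algebraMap_iff (algebraMap ℚ M).injective]
      have h3 : algebraMap ℚ M ((n : ℚ) ^ Fintype.card (M ≃ₐ[ℚ] M) * q) =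
          (∏ σ : M ≃ₐ[ℚ] M, (C (n : M) * X - C (σ ((n : M) * z)))).coeff k := by
        have h4 : (∏ σ : M ≃ₐ[ℚ] M, (C (n : M) * X - C (σ ((n : M) * z)))) =
            C ((n : M) ^ Fintype.card (M ≃ₐ[ℚ] M)) * f := by
          rw [hf, C_pow, ← Finset.card_univ, ← Finset.prod_const, ← Finset.prod_mul_distrib]
          refine Finset.prod_congr rfl fun σ _ => ?_
          have h5 : σ ((n : M) * z) = (n : M) * σ z := by
            rw [map_mul, map_natCast]
          rw [h5, C_mul]
          ring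
        rw [h4, Polynomial.coeff_C_mul, hq]
        simp
      rw [h3]
      refine coeff_prod_int _ _ (fun σ _ k => ?_) k
      rw [Polynomial.coeff_sub, Polynomial.coeff_C_mul, Polynomial.coeff_X, Polynomial.coeff_C]
      refine IsIntegral.sub ?_ ?_
      · split_ifs
        · rw [mul_one]
          exact isIntegral_natCast _
        · rw [mul_zero]; exact isIntegral_zero
      · split_ifs
        · exact hni.map (σ.toAlgHom.restrictScalars ℤ)
        · exact isIntegral_zero
    obtain ⟨a, ha⟩ := rat_int hAV S hS q n hn _ h1 h2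
    refine ⟨a, ?_⟩
    rw [hq, ha]
    simp
  have hlift : f ∈ Polynomial.lifts (algebraMap ℤ M) := by
    rw [Polynomial.lifts_iff_coeff_lifts]
    intro k
    obtain ⟨a, ha⟩ := hint k
    exact ⟨a, by rw [ha]; simp⟩
  obtain ⟨g, hg1, -, hg3⟩ := Polynomial.lifts_and_natDegree_eq_and_monic hlift hmon
  refine ⟨g, hg3, ?_⟩
  rw [Polynomial.eval₂_eq_eval_map, hg1]
  exact hroot

end Pool.Agent.Helper9.SUBK
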